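import Mathlib
import Pool.Agent.Q77.Cos.Ran

/-!
Integer sequences with few coincidences modulo the powers of `s`: for every real `x` boundedly many
of the numbers `x + k / s ^ n` are such that the multiples `a m (x + k / s ^ n)` miss an arc.
-/

set_option autoImplicit false

open Finset Filter

namespace Pool.Agent.Q77.Lw

open Pool.Agent.H332R2.Lit (e e_add norm_e e_zero conj_e e_nat_mul normSq_sum norm_geom_le)
open Pool.Agent.TH869.LPS (nr sq_exp nr_zero)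
open Pool.Agent.Q77.Cos (complete nr_le num num_inj ind ind_le zn zn_trunc zn_fin zn_union)

/-- few coincidences modulo the powers of `s` -/
def Few (a : ℕ → ℤ) (s : ℕ) (g : ℕ) : Prop := ∀ (n : ℕ) (h : ℤ) (i j : ℕ),
  ((s : ℤ) ^ n ∣ h * (a i - a j)) → (s : ℤ) ^ n ∣ g * h * ((i : ℤ) - j)

open Classical in
/-- counting pairs -/
lemma pairs (q G N : ℕ) (hq : 0 < q) (hG : 0 < G) :
    (q : ℝ) * (((range N ×ˢ range N).filter (fun p : ℕ × ℕ =>
      (q : ℤ) ∣ G * ((p.1 : ℤ) - p.2))).card : ℝ) ≤ G * (N : ℝ) ^ 2 + q * N := by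
  set d := Nat.gcd q G with hd
  have hdpos : 0 < d := Nat.gcd_pos_of_pos_left _ hq
  obtain ⟨q', hq'⟩ : d ∣ q := Nat.gcd_dvd_left _ _
  obtain ⟨G', hG'⟩ : d ∣ G := Nat.gcd_dvd_right _ _
  have hq'0 : 0 < q' := by
    rcases Nat.eq_zero_or_pos q' with h | h
    · rw [h] at hq'; omega
    · exact h
  have hcop : IsCoprime (q' : ℤ) (G' : ℤ) := by
    rw [Nat.isCoprime_iff_coprime]
    have h1 : Nat.Coprime (q / d) (G / d) := Nat.coprime_div_gcd_div_gcd hdpos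
    rwa [hq', hG', Nat.mul_div_cancel_left _ hdpos, Nat.mul_div_cancel_left _ hdpos] at h1
  have hkey : ∀ i j : ℕ, (q : ℤ) ∣ G * ((i : ℤ) - j) → i ≡ j [MOD q'] := by
    intro i j hij
    have h1 : (q' : ℤ) ∣ G' * ((i : ℤ) - j) := by
      have hd0 : (d : ℤ) ≠ 0 := by exact_mod_cast hdpos.ne'
      have h2 : ((q : ℤ)) = d * q' := by exact_mod_cast hq'
      have h3 : ((G : ℤ)) = d * G' := by exact_mod_cast hG'
      rw [h2, h3, mul_assoc] at hij
      exact (mul_dvd_mul_iff_left hd0).1 hij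
    have h2 : (q' : ℤ) ∣ (i : ℤ) - j := hcop.dvd_of_dvd_mul_left h1
    exact ((Nat.modEq_iff_dvd).2 (by rw [← neg_sub]; exact (dvd_neg).2 h2))
  have hcard : ((range N ×ˢ range N).filter (fun p : ℕ × ℕ =>
      (q : ℤ) ∣ G * ((p.1 : ℤ) - p.2))).card ≤ N * (N / q' + 1) := by
    calc _ ≤ ∑ j ∈ range N, ((range N).filter (fun l => l ≡ j [MOD q'])).card := by
          have hsub : ((range N ×ˢ range N).filter (fun p : ℕ × ℕ =>
              (q : ℤ) ∣ G * ((p.1 : ℤ) - p.2))) ⊆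
              (range N).biUnion (fun j => ((range N).filter
                (fun l => l ≡ j [MOD q'])).image (fun l => (l, j))) := by
            rintro ⟨m, l⟩ hp
            rw [mem_filter, mem_product] at hp
            rw [mem_biUnion]
            exact ⟨l, hp.1.2, mem_image.2 ⟨m, mem_filter.2 ⟨hp.1.1, hkey m l hp.2⟩, rfl⟩⟩
          refine (card_le_card hsub).trans (card_biUnion_le.trans ?_)
          exact sum_le_sum fun m _ => card_image_le
      _ ≤ ∑ _m ∈ range N, (N / q' + 1) :=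
          sum_le_sum fun m _ => Pool.Agent.Q77.Cos.card_class N _ m
      _ = _ := by rw [sum_const, card_range, smul_eq_mul]
  have hqR : (0 : ℝ) < q := by exact_mod_cast hq
  have hq'R : (0 : ℝ) < q' := by exact_mod_cast hq'0
  have hqG : (q : ℝ) ≤ G * q' := by
    have h1 : q ≤ G * q' := by
      rw [hq']
      exact Nat.mul_le_mul_right _ (Nat.le_of_dvd hG (Nat.gcd_dvd_right _ _))
    exact_mod_cast h1
  have h1 : ((N * (N / q' + 1) : ℕ) : ℝ) ≤ N * (N / q' + 1) := by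
    push_cast
    have : (((N / q' : ℕ)) : ℝ) ≤ (N : ℝ) / q' := Nat.cast_div_le
    gcongr
  calc (q : ℝ) * (((range N ×ˢ range N).filter (fun p : ℕ × ℕ =>
      (q : ℤ) ∣ G * ((p.1 : ℤ) - p.2))).card : ℝ) ≤ q * (N * (N / q' + 1)) := by
        apply mul_le_mul_of_nonneg_left _ hqR.le
        refine le_trans ?_ h1
        exact_mod_cast hcard
    _ = (q / q') * (N : ℝ) ^ 2 + q * N := by field_simp
    _ ≤ G * (N : ℝ) ^ 2 + q * N := by
        have : (q : ℝ) / q' ≤ G := by rw [div_le_iff₀ hq'R]; exact hqG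
        gcongr

open Classical in
/-- second moment by counting -/
lemma second (a : ℕ → ℤ) (q : ℕ) (hq : 0 < q) (h : ℤ) (N K : ℕ) (x : ℝ) :
    ∑ k ∈ range q, ‖∑ m ∈ range N, e (h * (a (K + m) * (x + k / q)))‖ ^ 2 ≤
      q * (((range N ×ˢ range N).filter (fun p : ℕ × ℕ =>
        (q : ℤ) ∣ h * (a (K + p.1) - a (K + p.2)))).card : ℝ) := by
  have hqR : (q : ℝ) ≠ 0 := by exact_mod_cast hq.ne'
  have h1 : ((∑ k ∈ range q, ‖∑ m ∈ range N, e (h * (a (K + m) * (x + k / q)))‖ ^ 2 : ℝ) : ℂ) =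
      ∑ m ∈ range N, ∑ l ∈ range N,
        e (h * a (K + m) * x - h * a (K + l) * x) *
        (if (q : ℤ) ∣ h * (a (K + m) - a (K + l)) then (q : ℂ) else 0) := by
    rw [Complex.ofReal_sum]
    have h2 : ∀ k ∈ range q,
        ((‖∑ m ∈ range N, e (h * (a (K + m) * (x + k / q)))‖ ^ 2 : ℝ) : ℂ) =
        ∑ m ∈ range N, ∑ l ∈ range N,
          e (h * a (K + m) * x - h * a (K + l) * x) *
          e (k * (((h * (a (K + m) - a (K + l)) : ℤ) : ℝ) / q)) := by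
      intro k _
      rw [normSq_sum]
      refine Finset.sum_congr rfl fun m _ => Finset.sum_congr rfl fun l _ => ?_
      rw [← e_add]
      congr 1
      push_cast
      field_simp
    rw [Finset.sum_congr rfl h2, Finset.sum_comm]
    refine Finset.sum_congr rfl fun m _ => ?_
    rw [Finset.sum_comm]
    refine Finset.sum_congr rfl fun l _ => ?_
    rw [← Finset.mul_sum, complete q hq]
  have h0 : 0 ≤ ∑ k ∈ range q, ‖∑ m ∈ range N, e (h * (a (K + m) * (x + k / q)))‖ ^ 2 :=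
    Finset.sum_nonneg fun m _ => by positivity
  have h3 : ∑ k ∈ range q, ‖∑ m ∈ range N, e (h * (a (K + m) * (x + k / q)))‖ ^ 2 =
      ‖((∑ k ∈ range q, ‖∑ m ∈ range N, e (h * (a (K + m) * (x + k / q)))‖ ^ 2 : ℝ) : ℂ)‖ := by
    rw [Complex.norm_real, Real.norm_of_nonneg h0]
  rw [h3, h1]
  calc _ ≤ ∑ m ∈ range N, ∑ l ∈ range N,
        ‖e (h * a (K + m) * x - h * a (K + l) * x) *
        (if (q : ℤ) ∣ h * (a (K + m) - a (K + l)) then (q : ℂ) else 0)‖ :=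
        (norm_sum_le _ _).trans (Finset.sum_le_sum fun m _ => norm_sum_le _ _)
    _ = ∑ m ∈ range N, ∑ l ∈ range N,
        (if (q : ℤ) ∣ h * (a (K + m) - a (K + l)) then (q : ℝ) else 0) := by
        refine Finset.sum_congr rfl fun m _ => Finset.sum_congr rfl fun l _ => ?_
        rw [norm_mul, norm_e, one_mul]
        split_ifs
        · simp
        · simp
    _ = ∑ p ∈ range N ×ˢ range N,
        (if (q : ℤ) ∣ h * (a (K + p.1) - a (K + p.2)) then (q : ℝ) else 0) := by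
        rw [Finset.sum_product]
    _ = _ := by
        rw [← Finset.sum_filter, Finset.sum_const, nsmul_eq_mul]
        ring

/-- the moment inequality -/
theorem moment (a : ℕ → ℤ) (s g : ℕ) (hs : 1 ≤ s) (hg : 1 ≤ g) (hF : Few a s g) (n N K : ℕ)
    (hN : s ^ n ≤ N) (h : ℤ) (hh : h ≠ 0) (x : ℝ) :
    ∑ k ∈ range (s ^ n), ‖∑ m ∈ range N, e (h * (a (K + m) * (x + k / (s : ℝ) ^ n)))‖ ^ 2 ≤
      2 * g * |(h : ℝ)| * (N : ℝ) ^ 2 := by
  classical
  have hq : 0 < s ^ n := Nat.pow_pos (by omega)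
  have h1 := second a (s ^ n) hq h N K x
  push_cast at h1
  refine h1.trans ?_
  set G : ℕ := g * h.natAbs with hG
  have hGpos : 0 < G := Nat.mul_pos (by omega) (Int.natAbs_pos.2 hh)
  have h2 := pairs (s ^ n) G N hq hGpos
  have h3 : ((range N ×ˢ range N).filter (fun p : ℕ × ℕ =>
      ((s : ℤ) ^ n) ∣ h * (a (K + p.1) - a (K + p.2)))).card ≤
      ((range N ×ˢ range N).filter (fun p : ℕ × ℕ =>
      ((s ^ n : ℕ) : ℤ) ∣ G * ((p.1 : ℤ) - p.2))).card := by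
    apply card_le_card
    intro p hp
    rw [mem_filter] at hp ⊢
    refine ⟨hp.1, ?_⟩
    have h4 := hF n h (K + p.1) (K + p.2) hp.2
    push_cast at h4 ⊢
    have h5 : (K : ℤ) + p.1 - (K + p.2) = p.1 - p.2 := by ring
    rw [h5] at h4
    rw [hG]
    push_cast
    rcases Int.natAbs_eq h with h6 | h6
    · have h7 : (g : ℤ) * |h| * ((p.1 : ℤ) - p.2) = g * h * (p.1 - p.2) := by
        rw [← Int.natCast_natAbs, ← h6]
      rw [h7]; exact h4
    · have h7 : (g : ℤ) * |h| * ((p.1 : ℤ) - p.2) = -(g * h * (p.1 - p.2)) := by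
        rw [← Int.natCast_natAbs]
        have h8 : ((h.natAbs : ℕ) : ℤ) = -h := by omega
        rw [h8]
        ring
      rw [h7]; exact (dvd_neg).2 h4
  have hGR : (G : ℝ) = g * |(h : ℝ)| := by
    rw [hG]
    push_cast
    rw [Nat.cast_natAbs]
    push_cast
    rfl
  have hh1 : (1 : ℝ) ≤ |(h : ℝ)| := by
    have : 1 ≤ |h| := Int.one_le_abs hh
    exact_mod_cast this
  have hg1 : (1 : ℝ) ≤ g := by exact_mod_cast hg
  have hNR : ((s : ℝ) ^ n) ≤ N := by exact_mod_cast hN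
  have hN0 : (0 : ℝ) ≤ N := Nat.cast_nonneg _
  calc _ ≤ (s : ℝ) ^ n * (((range N ×ˢ range N).filter (fun p : ℕ × ℕ =>
      ((s ^ n : ℕ) : ℤ) ∣ G * ((p.1 : ℤ) - p.2))).card : ℝ) := by
        apply mul_le_mul_of_nonneg_left _ (by positivity)
        exact_mod_cast h3
    _ ≤ G * (N : ℝ) ^ 2 + (s : ℝ) ^ n * N := by
        push_cast at h2 ⊢
        exact h2
    _ ≤ G * (N : ℝ) ^ 2 + 1 * 1 * (N : ℝ) ^ 2 := by
        have : (s : ℝ) ^ n * N ≤ N * N := by gcongr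
        nlinarith
    _ ≤ G * (N : ℝ) ^ 2 + g * |(h : ℝ)| * (N : ℝ) ^ 2 := by gcongr
    _ = _ := by rw [hGR]; ring

/-- points at distance at least `δ` from `c` modulo one make some Weyl sums large -/
lemma weyl_of_miss (u : ℕ → ℝ) (δ : ℝ) (hδ : 0 < δ) (N : ℕ) (c : ℝ)
    (hc : ∀ m < N, ∀ k : ℤ, δ ≤ |u m - c - k|) (M : ℕ)
    (hM : 1 / (2 * δ ^ 2) ≤ M) :
    (N : ℝ) ^ 2 / (8 * M) ≤
      ∑ h ∈ (Ioo (-(M : ℤ)) M).erase 0, ‖∑ m ∈ range N, e (h * u m)‖ ^ 2 := by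
  have hM0 : (0 : ℝ) < M := lt_of_lt_of_le (by positivity) hM
  have hMn : 0 < M := by exact_mod_cast hM0
  have hN0 : (0 : ℝ) ≤ N := Nat.cast_nonneg _
  have h1 : ∑ m ∈ range N, ‖∑ a ∈ range M, e (a * (u m - c))‖ ^ 2 ≤ N * (M / 2) := by
    calc _ ≤ ∑ _m ∈ range N, ((M : ℝ) / 2) := by
          refine sum_le_sum fun m hm => ?_
          have h2 := norm_geom_le (u m - c) δ hδ (hc m (mem_range.1 hm) _) M
          calc _ ≤ (1 / (2 * δ)) ^ 2 := pow_le_pow_left₀ (norm_nonneg _) h2 2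
            _ = (1 / (2 * δ ^ 2)) / 2 := by field_simp
            _ ≤ _ := by linarith
      _ = _ := by rw [sum_const, card_range, nsmul_eq_mul]
  have h2 : ((∑ m ∈ range N, ‖∑ a ∈ range M, e (a * (u m - c))‖ ^ 2 : ℝ) : ℂ) =
      ∑ h ∈ Ioo (-(M : ℤ)) M, (nr M h : ℂ) * e (-(h * c)) * ∑ m ∈ range N, e (h * u m) := by
    rw [Complex.ofReal_sum]
    have h3 : ∀ m ∈ range N, ((‖∑ a ∈ range M, e (a * (u m - c))‖ ^ 2 : ℝ) : ℂ) =
        ∑ h ∈ Ioo (-(M : ℤ)) M, (nr M h : ℂ) * e (-(h * c)) * e (h * u m) := by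
      intro m _
      rw [sq_exp]
      refine sum_congr rfl fun h _ => ?_
      rw [mul_assoc, ← e_add]
      congr 2
      ring
    rw [sum_congr rfl h3, sum_comm]
    refine sum_congr rfl fun h _ => ?_
    rw [mul_sum]
  have h0 : (0 : ℤ) ∈ Ioo (-(M : ℤ)) M := by rw [mem_Ioo]; omega
  rw [← add_sum_erase _ _ h0] at h2
  have h4 : (nr M 0 : ℂ) * e (-(((0 : ℤ) : ℝ) * c)) * ∑ m ∈ range N, e (((0 : ℤ) : ℝ) * u m) =
      ((M * N : ℝ) : ℂ) := by
    rw [nr_zero]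
    simp [e_zero]
  rw [h4] at h2
  have h5 : (M * N : ℝ) - N * (M / 2) ≤
      ‖∑ h ∈ (Ioo (-(M : ℤ)) M).erase 0, (nr M h : ℂ) * e (-(h * c)) *
        ∑ m ∈ range N, e (h * u m)‖ := by
    have h6 : ∑ h ∈ (Ioo (-(M : ℤ)) M).erase 0, (nr M h : ℂ) * e (-(h * c)) *
        ∑ m ∈ range N, e (h * u m) =
        ((∑ m ∈ range N, ‖∑ a ∈ range M, e (a * (u m - c))‖ ^ 2 - M * N : ℝ) : ℂ) := by
      rw [Complex.ofReal_sub, h2]
      ring
    rw [h6, Complex.norm_real]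
    refine le_trans ?_ (neg_le_abs _)
    linarith
  have h7 : ‖∑ h ∈ (Ioo (-(M : ℤ)) M).erase 0, (nr M h : ℂ) * e (-(h * c)) *
      ∑ m ∈ range N, e (h * u m)‖ ≤
      M * ∑ h ∈ (Ioo (-(M : ℤ)) M).erase 0, ‖∑ m ∈ range N, e (h * u m)‖ := by
    refine (norm_sum_le _ _).trans ?_
    rw [mul_sum]
    refine sum_le_sum fun h _ => ?_
    rw [norm_mul, norm_mul, norm_e, Complex.norm_natCast, mul_one]
    gcongr
    exact_mod_cast nr_le M h
  have h8 : (N : ℝ) / 2 ≤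
      ∑ h ∈ (Ioo (-(M : ℤ)) M).erase 0, ‖∑ m ∈ range N, e (h * u m)‖ := by
    have h9 : (M : ℝ) * (N / 2) ≤
        M * ∑ h ∈ (Ioo (-(M : ℤ)) M).erase 0, ‖∑ m ∈ range N, e (h * u m)‖ := by
      calc (M : ℝ) * (N / 2) = (M * N : ℝ) - N * (M / 2) := by ring
        _ ≤ _ := h5.trans h7
    exact le_of_mul_le_mul_left h9 hM0
  have hcard : (((Ioo (-(M : ℤ)) M).erase 0).card : ℝ) ≤ 2 * M := by
    have h1 : ((Ioo (-(M : ℤ)) M).erase 0).card ≤ 2 * M := by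
      refine (Finset.card_erase_le).trans ?_
      rw [Int.card_Ioo]
      omega
    exact_mod_cast h1
  have hcs : (∑ h ∈ (Ioo (-(M : ℤ)) M).erase 0, ‖∑ m ∈ range N, e (h * u m)‖) ^ 2 ≤
      (2 * M) * ∑ h ∈ (Ioo (-(M : ℤ)) M).erase 0, ‖∑ m ∈ range N, e (h * u m)‖ ^ 2 := by
    refine (sq_sum_le_card_mul_sum_sq).trans ?_
    apply mul_le_mul_of_nonneg_right hcard
    exact sum_nonneg fun h _ => by positivity
  rw [div_le_iff₀ (by positivity)]
  have h10 : ((N : ℝ) / 2) ^ 2 ≤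
      (∑ h ∈ (Ioo (-(M : ℤ)) M).erase 0, ‖∑ m ∈ range N, e (h * u m)‖) ^ 2 :=
    pow_le_pow_left₀ (by positivity) h8 2
  nlinarith

/-- the multiples `a m y`, `K ≤ m < K + N`, miss an arc -/
def Miss (a : ℕ → ℤ) (δ : ℝ) (K N : ℕ) (y : ℝ) : Prop :=
  ∃ c : ℝ, ∀ m < N, ∀ k : ℤ, δ ≤ |(a (K + m) : ℝ) * y - c - k|

open Classical in
/-- the number of shifts with a missed arc -/
theorem miss_card (a : ℕ → ℤ) (s g : ℕ) (hs : 1 ≤ s) (hg : 1 ≤ g) (hF : Few a s g) (n N K : ℕ)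
    (hN : s ^ n ≤ N) (δ : ℝ) (hδ : 0 < δ) (x : ℝ) :
    (((range (s ^ n)).filter (fun k : ℕ => Miss a δ K N (x + k / (s : ℝ) ^ n))).card : ℝ) ≤
      32 * g / δ ^ 6 := by
  have hNpos : 0 < N := lt_of_lt_of_le (Nat.pow_pos (by omega)) hN
  have hN0 : (0 : ℝ) < N := by exact_mod_cast hNpos
  rcases le_or_gt δ (1 / 2) with hδ2 | hδ2
  swap
  · have h1 : (range (s ^ n)).filter (fun k : ℕ => Miss a δ K N (x + k / (s : ℝ) ^ n)) = ∅ := by
      rw [filter_eq_empty_iff]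
      rintro k _ ⟨c, hc⟩
      have h2 := hc 0 hNpos (round ((a (K + 0) : ℝ) * (x + k / (s : ℝ) ^ n) - c))
      have h3 := abs_sub_round ((a (K + 0) : ℝ) * (x + k / (s : ℝ) ^ n) - c)
      linarith
    rw [h1, card_empty, Nat.cast_zero]
    positivity
  set M : ℕ := ⌈1 / (2 * δ ^ 2)⌉₊ with hM
  have hM1 : 1 / (2 * δ ^ 2) ≤ M := Nat.le_ceil _
  have hM0 : (0 : ℝ) < M := lt_of_lt_of_le (by positivity) hM1
  have hM2 : (M : ℝ) ≤ 1 / δ ^ 2 := by
    have h1 := Nat.ceil_lt_add_one (by positivity : (0 : ℝ) ≤ 1 / (2 * δ ^ 2))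
    have h2 : 1 ≤ 1 / (2 * δ ^ 2) := by
      rw [le_div_iff₀ (by positivity)]
      nlinarith
    have h3 : 1 / δ ^ 2 = 1 / (2 * δ ^ 2) + 1 / (2 * δ ^ 2) := by field_simp; ring
    rw [h3]
    linarith
  set PP : Finset ℤ := (Ioo (-(M : ℤ)) M).erase 0 with hPP
  set BB := (range (s ^ n)).filter (fun k : ℕ => Miss a δ K N (x + k / (s : ℝ) ^ n)) with hBB
  have hcard : (PP.card : ℝ) ≤ 2 * M := by
    have h1 : PP.card ≤ 2 * M := by
      refine (Finset.card_erase_le).trans ?_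
      rw [Int.card_Ioo]
      omega
    exact_mod_cast h1
  have h1 : (BB.card : ℝ) * ((N : ℝ) ^ 2 / (8 * M)) ≤
      ∑ k ∈ BB, ∑ h ∈ PP, ‖∑ m ∈ range N, e (h * (a (K + m) * (x + k / (s : ℝ) ^ n)))‖ ^ 2 := by
    rw [← nsmul_eq_mul, ← sum_const]
    refine sum_le_sum fun k hk => ?_
    obtain ⟨c, hc⟩ := (mem_filter.1 hk).2
    exact weyl_of_miss (fun m => (a (K + m) : ℝ) * (x + k / (s : ℝ) ^ n)) δ hδ N c hc M hM1
  have h2 : ∑ k ∈ BB, ∑ h ∈ PP,
      ‖∑ m ∈ range N, e (h * (a (K + m) * (x + k / (s : ℝ) ^ n)))‖ ^ 2 ≤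
      (2 * M) * (2 * g * M * (N : ℝ) ^ 2) := by
    rw [sum_comm]
    calc _ ≤ ∑ h ∈ PP, (2 * g * M * (N : ℝ) ^ 2 : ℝ) := by
          refine sum_le_sum fun h hh => ?_
          rw [hPP, mem_erase, mem_Ioo] at hh
          obtain ⟨hh0, hh1, hh2⟩ := hh
          have habs : |(h : ℝ)| ≤ M := by
            have : |h| < (M : ℤ) := abs_lt.2 ⟨hh1, hh2⟩
            exact_mod_cast this.le
          calc _ ≤ ∑ k ∈ range (s ^ n),
                ‖∑ m ∈ range N, e (h * (a (K + m) * (x + k / (s : ℝ) ^ n)))‖ ^ 2 :=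
                sum_le_sum_of_subset_of_nonneg (filter_subset _ _) fun _ _ _ => by positivity
            _ ≤ 2 * g * |(h : ℝ)| * (N : ℝ) ^ 2 := moment a s g hs hg hF n N K hN h hh0 x
            _ ≤ _ := by gcongr
      _ = PP.card * (2 * g * M * (N : ℝ) ^ 2) := by rw [sum_const, nsmul_eq_mul]
      _ ≤ _ := by gcongr
  have h3 : (BB.card : ℝ) ≤ 32 * g * (M : ℝ) ^ 3 := by
    have h4 := h1.trans h2
    have h5 : (0 : ℝ) < (N : ℝ) ^ 2 / (8 * M) := by positivity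
    refine le_of_mul_le_mul_right (h4.trans (le_of_eq ?_)) h5
    field_simp
    ring
  calc (BB.card : ℝ) ≤ 32 * g * (M : ℝ) ^ 3 := h3
    _ ≤ 32 * g * (1 / δ ^ 2) ^ 3 := by gcongr
    _ = _ := by field_simp

end Pool.Agent.Q77.Lw
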