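import Mathlib
import Pool.Agent.Q77.Lw.Gen

/-!
Changes of digits: elements of `ℤ[1/s]`, finite sets of places, subsets of a very sparse set of
places, random subsets of an infinite set of places.
-/

set_option autoImplicit false

open Finset Filter

namespace Pool.Agent.Q77.Lw

open Pool.Agent.Q77.Cos (num num_inj ind ind_le zn zn_trunc zn_fin zn_union)

/-- from some index on the multiples `a m y` are at distance at least `δ` from a point `c` -/
def EvMiss (a : ℕ → ℤ) (δ : ℝ) (y : ℝ) : Prop :=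
  ∃ c : ℝ, ∃ K : ℕ, ∀ m : ℕ, K ≤ m → ∀ k : ℤ, δ ≤ |(a m : ℝ) * y - c - k|

lemma miss_int {a : ℕ → ℤ} {δ : ℝ} {K N : ℕ} {y : ℝ} (z : ℤ) (h : Miss a δ K N (y + z)) :
    Miss a δ K N y := by
  obtain ⟨c, hc⟩ := h
  refine ⟨c, fun t ht k => ?_⟩
  have := hc t ht (k + a (K + t) * z)
  push_cast at this
  convert this using 2
  ring

/-- a common starting index -/
lemma common {ι : Type*} (F : Finset ι) (a : ℕ → ℤ) (δ : ℝ) (y : ι → ℝ)
    (h : ∀ i ∈ F, EvMiss a δ (y i)) : ∃ K : ℕ, ∀ i ∈ F, ∀ N : ℕ, Miss a δ K N (y i) := by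
  classical
  have h1 : ∀ i : ι, ∃ K : ℕ, i ∈ F →
      ∃ c : ℝ, ∀ m : ℕ, K ≤ m → ∀ k : ℤ, δ ≤ |(a m : ℝ) * y i - c - k| := by
    intro i
    by_cases hi : i ∈ F
    · obtain ⟨c, K, hK⟩ := h i hi
      exact ⟨K, fun _ => ⟨c, hK⟩⟩
    · exact ⟨0, fun h => absurd h hi⟩
  choose f hf using h1
  refine ⟨F.sup f, fun i hi N => ?_⟩
  obtain ⟨c, hc⟩ := hf i hi
  refine ⟨c, fun m _ k => hc _ ?_ k⟩
  have : f i ≤ F.sup f := Finset.le_sup hi
  omega

/-- elements of `ℤ[1/s]` -/
theorem class_card (a : ℕ → ℤ) (s g : ℕ) (hs : 1 ≤ s) (hg : 1 ≤ g) (hF : Few a s g) (x δ : ℝ)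
    (hδ : 0 < δ) (F : Finset ℝ)
    (h : ∀ r ∈ F, 0 ≤ r ∧ r < 1 ∧ (∃ (n : ℕ) (k : ℤ), r = k / (s : ℝ) ^ n) ∧
      EvMiss a δ (x + r)) :
    (F.card : ℝ) ≤ 32 * g / δ ^ 6 := by
  classical
  obtain ⟨K, hK⟩ := common F a δ (fun r => x + r) (fun r hr => (h r hr).2.2.2)
  have hsR : (0 : ℝ) < s := by exact_mod_cast hs
  have h1 : ∀ r : ℝ, ∃ (n : ℕ) (k : ℤ), r ∈ F → r = k / (s : ℝ) ^ n := by
    intro r
    by_cases hr : r ∈ F
    · obtain ⟨-, -, ⟨n, k, h⟩, -⟩ := h r hr
      exact ⟨n, k, fun _ => h⟩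
    · exact ⟨0, 0, fun h => absurd h hr⟩
  choose f v hfv using h1
  set n := F.sup f with hn
  set k : ℝ → ℤ := fun y => v y * (s : ℤ) ^ (n - f y) with hk
  have hky : ∀ y ∈ F, y = k y / (s : ℝ) ^ n := by
    intro y hy
    have h2 : f y ≤ n := Finset.le_sup hy
    have h4 := hfv y hy
    rw [hk]
    push_cast
    have h3 : (s : ℝ) ^ n = (s : ℝ) ^ (f y) * (s : ℝ) ^ (n - f y) := by
      rw [← pow_add]; congr 1; omega
    rw [h3]
    rw [eq_div_iff (by positivity)] at h4 ⊢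
    rw [← h4]
    ring
  have hsn : (0 : ℝ) < (s : ℝ) ^ n := by positivity
  have hk0 : ∀ y ∈ F, 0 ≤ k y ∧ k y < (s : ℤ) ^ n := by
    intro y hy
    obtain ⟨h2, h3, -⟩ := h y hy
    have h4 := hky y hy
    rw [eq_div_iff hsn.ne'] at h4
    constructor
    · have : (0 : ℝ) ≤ k y := by rw [← h4]; positivity
      exact_mod_cast this
    · have : (k y : ℝ) < (s : ℝ) ^ n := by rw [← h4]; nlinarith
      exact_mod_cast this
  have hcard : F.card ≤ ((Finset.range (s ^ n)).filter (fun j : ℕ =>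
      Miss a δ K (s ^ n) (x + j / (s : ℝ) ^ n))).card := by
    apply Finset.card_le_card_of_injOn (fun y => (k y).toNat)
    · intro y hy
      rw [Finset.mem_coe] at hy
      rw [Finset.mem_coe, Finset.mem_filter, Finset.mem_range]
      obtain ⟨h2, h3⟩ := hk0 y hy
      refine ⟨?_, ?_⟩
      · zify
        rw [Int.toNat_of_nonneg h2]
        exact h3
      · have h4 := hK y hy (s ^ n)
        have h5 : (((k y).toNat : ℕ) : ℝ) = ((k y : ℤ) : ℝ) := by
          have := Int.toNat_of_nonneg h2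
          exact_mod_cast congrArg (Int.cast : ℤ → ℝ) this
        rw [h5, ← hky y hy]
        exact h4
    · intro y hy y' hy' hyy
      rw [Finset.mem_coe] at hy hy'
      simp only at hyy
      have h2 : k y = k y' := by
        rw [← Int.toNat_of_nonneg (hk0 y hy).1, ← Int.toNat_of_nonneg (hk0 y' hy').1, hyy]
      rw [hky y hy, hky y' hy', h2]
  calc (F.card : ℝ) ≤ (((Finset.range (s ^ n)).filter (fun j : ℕ =>
      Miss a δ K (s ^ n) (x + j / (s : ℝ) ^ n))).card : ℝ) := by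
        exact_mod_cast hcard
    _ ≤ 32 * g / δ ^ 6 := by
        convert miss_card a s g hs hg hF n (s ^ n) K le_rfl δ hδ x

/-- numerators with different residues -/
lemma num_lt (s : ℕ) (hs : 2 ≤ s) (d : ℕ → ℕ) (hd : ∀ i, d i ≤ 1) (L : ℕ) : num s d L < s ^ L := by
  induction L with
  | zero => simp [num]
  | succ L ih =>
    rw [num, pow_succ']
    have h1 := hd L
    have h2 : s * (num s d L + 1) ≤ s * s ^ L := Nat.mul_le_mul_left _ ih
    nlinarith

/-- finitely many sets of places, seen up to the place `L` -/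
theorem num_card (a : ℕ → ℤ) (s g : ℕ) (hs : 2 ≤ s) (hg : 1 ≤ g) (hF : Few a s g) (x δ : ℝ)
    (hδ : 0 < δ) (K L : ℕ) (F : Finset (Set ℕ))
    (hsep : ∀ A ∈ F, ∀ B ∈ F, (∀ i < L, (i ∈ A ↔ i ∈ B)) → A = B)
    (h : ∀ A ∈ F, Miss a δ K (s ^ L) (x + num s (ind A) L / (s : ℝ) ^ L)) :
    (F.card : ℝ) ≤ 32 * g / δ ^ 6 := by
  classical
  have hcard : F.card ≤ ((Finset.range (s ^ L)).filter (fun j : ℕ =>
      Miss a δ K (s ^ L) (x + j / (s : ℝ) ^ L))).card := by
    apply Finset.card_le_card_of_injOn (fun A => num s (ind A) L)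
    · intro A hA
      rw [Finset.mem_coe] at hA
      rw [Finset.mem_coe, Finset.mem_filter, Finset.mem_range]
      exact ⟨num_lt s hs _ (ind_le A) L, h A hA⟩
    · intro A hA B hB hAB
      rw [Finset.mem_coe] at hA hB
      simp only at hAB
      apply hsep A hA B hB
      intro n hn
      have h2 := num_inj s s 1 (by simp) hs (by simp) (ind A) (ind B) (ind_le A) (ind_le B) L
        (by rw [hAB]) n hn
      unfold ind at h2
      constructor
      · intro h4
        by_contra h5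
        rw [if_pos h4, if_neg h5] at h2
        omega
      · intro h4
        by_contra h5
        rw [if_neg h5, if_pos h4] at h2
        omega
  calc (F.card : ℝ) ≤ (((Finset.range (s ^ L)).filter (fun j : ℕ =>
      Miss a δ K (s ^ L) (x + j / (s : ℝ) ^ L))).card : ℝ) := by
        exact_mod_cast hcard
    _ ≤ 32 * g / δ ^ 6 := by
        convert miss_card a s g (by omega) hg hF L (s ^ L) K le_rfl δ hδ x

/-- finite sets of places -/
theorem flip_card (a : ℕ → ℤ) (s g : ℕ) (hs : 2 ≤ s) (hg : 1 ≤ g) (hF : Few a s g) (x δ : ℝ)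
    (hδ : 0 < δ) (F : Finset (Set ℕ)) (hfin : ∀ A ∈ F, A.Finite)
    (h : ∀ A ∈ F, EvMiss a δ (x + zn s A)) :
    (F.card : ℝ) ≤ 32 * g / δ ^ 6 := by
  classical
  obtain ⟨K, hK⟩ := common F a δ (fun A => x + zn s A) h
  have h1 : ∀ A : Set ℕ, ∃ L : ℕ, A ∈ F → ∀ n ∈ A, n < L := by
    intro A
    by_cases hA : A ∈ F
    · obtain ⟨M, hM⟩ := (hfin A hA).bddAbove
      exact ⟨M + 1, fun _ n hn => by have := hM hn; omega⟩
    · exact ⟨0, fun h => absurd h hA⟩
  choose f hf using h1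
  set L := F.sup f with hL
  have hlt : ∀ A ∈ F, ∀ n ∈ A, n < L := fun A hA n hn =>
    lt_of_lt_of_le (hf A hA n hn) (Finset.le_sup hA)
  refine num_card a s g hs hg hF x δ hδ K L F ?_ ?_
  · intro A hA B hB hAB
    ext n
    by_cases hn : n < L
    · exact hAB n hn
    · exact ⟨fun h => absurd (hlt A hA n h) hn, fun h => absurd (hlt B hB n h) hn⟩
  · intro A hA
    have h3 := hK A hA (s ^ L)
    rwa [zn_fin s hs A L (hlt A hA)] at h3

/-- subsets of a very sparse set of places -/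
theorem sparse_card (a : ℕ → ℤ) (s g E : ℕ) (hs : 2 ≤ s) (hg : 1 ≤ g) (hF : Few a s g)
    (hE : ∀ m : ℕ, |(a m : ℝ)| ≤ 2 ^ (E * (m + 1))) (P : Set ℕ) (hP : P.Infinite)
    (hsp : ∀ m ∈ P, ∀ n ∈ P, m < n → (m + 2) ^ (m + 2) ≤ n) (x δ : ℝ) (hδ : 0 < δ)
    (F : Finset (Set ℕ)) (hsub : ∀ A ∈ F, A ⊆ P) (h : ∀ A ∈ F, EvMiss a δ (x + zn s A)) :
    (F.card : ℝ) ≤ 32 * g / (δ / 2) ^ 6 := by
  classical
  obtain ⟨K, hK⟩ := common F a δ (fun A => x + zn s A) h
  have h1 : ∀ A B : Set ℕ, ∃ n : ℕ, A ≠ B → ∃ i ≤ n, ¬ (i ∈ A ↔ i ∈ B) := by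
    intro A B
    by_cases hAB : A = B
    · exact ⟨0, fun h => absurd hAB h⟩
    · have : ∃ i, ¬ (i ∈ A ↔ i ∈ B) := by
        by_contra hcon
        push Not at hcon
        exact hAB (Set.ext hcon)
      obtain ⟨i, hi⟩ := this
      exact ⟨i, fun _ => ⟨i, le_rfl, hi⟩⟩
  choose f hf using h1
  obtain ⟨Q, hQ⟩ := exists_nat_gt (1 / δ)
  have hQ2 : (1 : ℝ) / δ ≤ 2 ^ Q := by
    refine hQ.le.trans ?_
    exact_mod_cast (Nat.lt_two_pow_self (n := Q)).le
  obtain ⟨m, hmP, hm⟩ := hP.exists_gt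
    (F.sup (fun A => F.sup (fun B => f A B)) + s + E * (K + 1) + E + Q)
  set L := m + 1 with hL
  set n' := (m + 2) ^ (m + 2) with hn'
  have hLn : L ≤ n' := by
    rw [hL, hn']
    calc m + 1 ≤ (m + 2) ^ 1 := by rw [pow_one]; omega
      _ ≤ (m + 2) ^ (m + 2) := Nat.pow_le_pow_right (by omega) (by omega)
  have hroom : E * ((K + 1) * (m + 1) + s ^ (m + 1)) + 1 + Q ≤ n' :=
    Pool.Agent.Q77.Cos.pow_room m s E (K + 1) Q (by omega) (by omega) (by omega) (by omega)
  have hgap : ∀ A ∈ F, ∀ n ∈ A, n < L ∨ n' ≤ n := by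
    intro A hA n hn
    rcases Nat.lt_or_ge n L with h | h
    · exact Or.inl h
    · exact Or.inr (hsp m hmP n (hsub A hA hn) (by omega))
  refine num_card a s g hs hg hF x (δ / 2) (by positivity) K L F ?_ ?_
  · intro A hA B hB hAB
    by_contra hne
    obtain ⟨i, hi, hi2⟩ := hf A B hne
    have h3 : f A B ≤ F.sup (fun A => F.sup (fun B => f A B)) :=
      (Finset.le_sup (f := fun B => f A B) hB).trans
        (Finset.le_sup (f := fun A => F.sup (fun B => f A B)) hA)
    exact hi2 (hAB i (by omega))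
  · intro A hA
    obtain ⟨c, hc⟩ := hK A hA (s ^ L)
    refine ⟨c, fun t ht k => ?_⟩
    have h3 := hc t ht k
    have h4 := zn_trunc s hs A L n' hLn (hgap A hA)
    have h5 : |(a (K + t) : ℝ)| ≤ 2 ^ (E * ((K + 1) * (m + 1) + s ^ (m + 1))) := by
      refine (hE (K + t)).trans ?_
      apply pow_le_pow_right₀ (by norm_num)
      apply Nat.mul_le_mul_left
      have : K + 1 ≤ (K + 1) * (m + 1) := Nat.le_mul_of_pos_right _ (by omega)
      rw [hL] at ht
      omega
    have h6 : |(a (K + t) : ℝ)| * (1 / 2) ^ n' ≤ δ / 2 := by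
      set T := E * ((K + 1) * (m + 1) + s ^ (m + 1)) with hT
      have h7 : (2 : ℝ) ^ (T + 1 + Q) ≤ 2 ^ n' := pow_le_pow_right₀ (by norm_num) hroom
      have h8 : (2 : ℝ) ^ T * (2 / δ) ≤ 2 ^ n' := by
        calc (2 : ℝ) ^ T * (2 / δ) = (2 : ℝ) ^ T * 2 * (1 / δ) := by ring
          _ ≤ (2 : ℝ) ^ T * 2 * 2 ^ Q := by gcongr
          _ = (2 : ℝ) ^ (T + 1 + Q) := by ring
          _ ≤ _ := h7
      calc |(a (K + t) : ℝ)| * (1 / 2) ^ n' ≤ 2 ^ T * (1 / 2) ^ n' := by gcongr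
        _ = (2 ^ T * (2 / δ)) * (δ / 2) / 2 ^ n' := by
            rw [one_div, inv_pow]
            field_simp
        _ ≤ 2 ^ n' * (δ / 2) / 2 ^ n' := by gcongr
        _ = δ / 2 := by field_simp
    have h7 : (a (K + t) : ℝ) * (x + zn s A) - c - k =
        ((a (K + t) : ℝ) * (x + num s (ind A) L / (s : ℝ) ^ L) - c - k) +
        (a (K + t) : ℝ) * (zn s A - num s (ind A) L / (s : ℝ) ^ L) := by ring
    have h8 : |(a (K + t) : ℝ) * (zn s A - num s (ind A) L / (s : ℝ) ^ L)| ≤ δ / 2 := by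
      rw [abs_mul]
      exact (mul_le_mul_of_nonneg_left h4 (abs_nonneg _)).trans h6
    rw [h7] at h3
    have h9 := abs_add_le ((a (K + t) : ℝ) * (x + num s (ind A) L / (s : ℝ) ^ L) - c - k)
      ((a (K + t) : ℝ) * (zn s A - num s (ind A) L / (s : ℝ) ^ L))
    linarith

open MeasureTheory Pool.Agent.Q77.Cos in
open Classical in
/-- random subsets of an infinite set of places -/
theorem random (a : ℕ → ℤ) (s g : ℕ) (hs : 2 ≤ s) (hg : 1 ≤ g) (hF : Few a s g) (P : Set ℕ)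
    (hP : P.Infinite) (x : ℝ) :
    ∀ᵐ ω ∂coins, ∀ δ : ℝ, 0 < δ → ¬ EvMiss a δ (x + zn s (places P ω)) := by
  set E : ℚ → ℕ → ℕ → Set (ℕ → Bool) := fun c j K =>
    {ω | ∀ t : ℕ, K ≤ t → ∀ k : ℤ,
      1 / ((j : ℝ) + 1) ≤ |(a t : ℝ) * (x + zn s (places P ω)) - c - k|} with hE
  have hmeas : ∀ c j K, MeasurableSet (E c j K) := by
    intro c j K
    have h4 : E c j K = ⋂ t : ℕ, ⋂ _ : K ≤ t, ⋂ k : ℤ, {ω | 1 / ((j : ℝ) + 1) ≤
        |(a t : ℝ) * (x + zn s (places P ω)) - c - k|} := by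
      ext ω
      simp only [hE, Set.mem_ofPred_eq, Set.mem_iInter]
    rw [h4]
    refine MeasurableSet.iInter fun t => MeasurableSet.iInter fun _ => MeasurableSet.iInter fun k => ?_
    apply IsClosed.measurableSet
    have := cont_zn s hs P
    exact isClosed_le continuous_const (by fun_prop)
  have hnull : ∀ c j K, coins (E c j K) = 0 := by
    intro c j K
    have hδ : (0 : ℝ) < 1 / ((j : ℝ) + 1) := by positivity
    refine null_of_flips P hP (E c j K) (hmeas c j K)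
      ⌈32 * (g : ℝ) / (1 / ((j : ℝ) + 1)) ^ 6⌉₊ fun V hV ω => ?_
    set D : Finset ℕ → Set ℕ := fun U => {n | n ∈ V ∧ flip U ω n = true} with hD
    have hsplit : ∀ U ∈ V.powerset, zn s (places P (flip U ω)) =
        zn s (places P ω \ V) + zn s (D U) := by
      intro U hU
      rw [Finset.mem_powerset] at hU
      rw [← zn_union s hs]
      · congr 1
        ext n
        simp only [places, hD, Set.mem_ofPred_eq, Set.mem_union, Set.mem_sdiff, Finset.mem_coe]
        by_cases hn : n ∈ V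
        · simp only [hn, true_and, not_true, and_false, false_or]
          exact ⟨fun h => h.2, fun h => ⟨hV hn, h⟩⟩
        · have h5 : n ∉ U := fun h => hn (hU h)
          simp only [hn, Pool.Agent.Q77.Cos.flip, h5, if_false, not_false_eq_true, and_true, false_and, or_false]
      · rw [Set.disjoint_left]
        rintro n ⟨-, h5⟩ ⟨h6, -⟩
        exact h5 h6
    have hinj : Set.InjOn D
        (V.powerset.filter (fun U => flip U ω ∈ E c j K) : Finset (Finset ℕ)) := by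
      intro U hU U' hU' hUU
      rw [Finset.mem_coe, Finset.mem_filter, Finset.mem_powerset] at hU hU'
      ext n
      by_cases hn : n ∈ V
      · have h5 := Set.ext_iff.1 hUU n
        simp only [hD, Set.mem_ofPred_eq, hn, true_and, Pool.Agent.Q77.Cos.flip] at h5
        by_cases h6 : n ∈ U <;> by_cases h7 : n ∈ U' <;> simp [h6, h7] at h5 ⊢
      · exact ⟨fun h => absurd (hU.1 h) hn, fun h => absurd (hU'.1 h) hn⟩
    have h5 : (V.powerset.filter (fun U => flip U ω ∈ E c j K)).card =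
        ((V.powerset.filter (fun U => flip U ω ∈ E c j K)).image D).card := by
      rw [Finset.card_image_of_injOn hinj]
    rw [h5]
    have h6 := flip_card a s g hs hg hF (x + zn s (places P ω \ V)) (1 / ((j : ℝ) + 1)) hδ
      ((V.powerset.filter (fun U => flip U ω ∈ E c j K)).image D)
      (by
        intro A hA
        rw [Finset.mem_image] at hA
        obtain ⟨U, hU, rfl⟩ := hA
        exact V.finite_toSet.subset fun n hn => hn.1)
      (by
        intro A hA
        rw [Finset.mem_image] at hA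
        obtain ⟨U, hU, rfl⟩ := hA
        rw [Finset.mem_filter] at hU
        refine ⟨c, K, ?_⟩
        have h7 := hU.2
        simp only [hE, Set.mem_ofPred_eq] at h7
        rw [hsplit U hU.1, ← add_assoc] at h7
        exact h7)
    have h7 := h6.trans (Nat.le_ceil _)
    exact_mod_cast h7
  have hall : ∀ᵐ ω ∂coins, ∀ c : ℚ, ∀ j K : ℕ, ω ∉ E c j K := by
    rw [ae_all_iff]
    intro c
    rw [ae_all_iff]
    intro j
    rw [ae_all_iff]
    intro K
    rw [ae_iff]
    simpa using hnull c j K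
  filter_upwards [hall] with ω hω
  rintro δ hδ ⟨c, K, hc⟩
  obtain ⟨q, hq1, hq2⟩ := exists_rat_btwn (by linarith : c < c + δ / 2)
  obtain ⟨j, hj⟩ := exists_nat_one_div_lt (by positivity : 0 < δ / 2)
  apply hω q j K
  intro t ht k
  refine hj.le.trans ?_
  have h1 := hc t ht k
  set y := x + zn s (places P ω) with hy
  have h2 : (a t : ℝ) * y - c - k = ((a t : ℝ) * y - q - k) + (q - c) := by ring
  have h3 := abs_add_le ((a t : ℝ) * y - q - k) (q - c)
  rw [← h2] at h3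
  have h4 : |(q : ℝ) - c| ≤ δ / 2 := by
    rw [abs_le]; constructor <;> linarith
  linarith

end Pool.Agent.Q77.Lw
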