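import Mathlib
import Pool.Agent.Q77.Lw.Sp

/-!
Lucas sequences of units of real quadratic fields modulo the powers of `s`.
-/

set_option autoImplicit false

namespace Pool.Agent.Q77.Lw

/-- `U 0 = 0`, `U 1 = 1`, `U (n + 2) = t U (n + 1) - U n` -/
def U (t : ℤ) : ℕ → ℤ
  | 0 => 0
  | 1 => 1
  | n + 2 => t * U t (n + 1) - U t n

/-- `V 0 = 2`, `V 1 = t`, `V (n + 2) = t V (n + 1) - V n` -/
def V (t : ℤ) : ℕ → ℤ
  | 0 => 2
  | 1 => t
  | n + 2 => t * V t (n + 1) - V t n

lemma U_zero (t : ℤ) : U t 0 = 0 := rfl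
lemma U_one (t : ℤ) : U t 1 = 1 := rfl
lemma U_add (t : ℤ) (n : ℕ) : U t (n + 2) = t * U t (n + 1) - U t n := rfl
lemma V_zero (t : ℤ) : V t 0 = 2 := rfl
lemma V_one (t : ℤ) : V t 1 = t := rfl
lemma V_add (t : ℤ) (n : ℕ) : V t (n + 2) = t * V t (n + 1) - V t n := rfl

/-- two-step induction -/
lemma two_step {P : ℕ → Prop} (h0 : P 0) (h1 : P 1) (h : ∀ n, P n → P (n + 1) → P (n + 2)) :
    ∀ n, P n := by
  intro n
  have : P n ∧ P (n + 1) := by
    induction n with
    | zero => exact ⟨h0, h1⟩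
    | succ n ih => exact ⟨ih.2, h n ih.1 ih.2⟩
  exact this.1

lemma U_mod (t : ℤ) (n : ℕ) : (t - 2) ∣ U t n - n := by
  revert n
  apply two_step
  · simp [U_zero]
  · simp [U_one]
  · intro n h1 h2
    rw [U_add]
    have : t * U t (n + 1) - U t n - ((n + 2 : ℕ) : ℤ) =
        (t - 2) * U t (n + 1) + 2 * (U t (n + 1) - ((n + 1 : ℕ) : ℤ)) - (U t n - n) := by
      push_cast; ring
    rw [this]
    exact dvd_sub (dvd_add (dvd_mul_right _ _) (h2.mul_left _)) h1

lemma V_mod (t : ℤ) (n : ℕ) : (t - 2) ∣ V t n - 2 := by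
  revert n
  apply two_step
  · simp [V_zero]
  · simp [V_one]
  · intro n h1 h2
    rw [V_add]
    have : t * V t (n + 1) - V t n - 2 =
        (t - 2) * V t (n + 1) + 2 * (V t (n + 1) - 2) - (V t n - 2) := by ring
    rw [this]
    exact dvd_sub (dvd_add (dvd_mul_right _ _) (h2.mul_left _)) h1

lemma sum_id (t : ℤ) (k : ℕ) : ∀ m : ℕ, U t (m + 2 * k) + U t m = V t k * U t (m + k) := by
  revert k
  apply two_step
  · intro m; rw [V_zero]; simp; ring
  · intro m
    rw [V_one, show m + 2 * 1 = m + 2 by ring, U_add]; ring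
  · intro k h1 h2 m
    have e1 := h2 (m + 1)
    have e2 := h1 (m + 2)
    rw [show m + 1 + 2 * (k + 1) = m + 2 * k + 3 by ring, show m + 1 + (k + 1) = m + k + 2 by ring]
      at e1
    rw [show m + 2 + 2 * k = m + 2 * k + 2 by ring, show m + 2 + k = m + k + 2 by ring] at e2
    rw [show m + 2 * (k + 2) = m + 2 * k + 2 + 2 by ring, U_add, V_add,
      show m + (k + 2) = m + k + 2 by ring, show m + 2 * k + 2 + 1 = m + 2 * k + 3 by ring]
    have e3 := U_add t m
    linear_combination t * e1 - e2 + e3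

lemma V_eq (t : ℤ) (n : ℕ) : V t (n + 1) = U t (n + 2) - U t n := by
  revert n
  apply two_step
  · rw [V_one, U_add, U_one, U_zero]; ring
  · rw [V_add, V_one, V_zero, U_add, U_add, U_one, U_zero]; ring
  · intro n h1 h2
    rw [show n + 2 + 1 = n + 1 + 2 by ring, V_add, h2, h1, U_add t (n + 2), U_add t n]
    rw [show n + 1 + 2 = n + 2 + 1 by ring, show n + 1 + 1 = n + 2 by ring] at *
    linear_combination 0 * h1

lemma diff_id (t : ℤ) (k : ℕ) : ∀ m : ℕ, U t (m + 2 * k) - U t m = V t (m + k) * U t k := by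
  revert k
  apply two_step
  · intro m; rw [U_zero]; simp
  · intro m
    rw [U_one, show m + 2 * 1 = m + 2 by ring, V_eq]; ring
  · intro k h1 h2 m
    have e1 := h2 (m + 1)
    have e2 := h1 (m + 2)
    rw [show m + 1 + 2 * (k + 1) = m + 2 * k + 3 by ring, show m + 1 + (k + 1) = m + k + 2 by ring]
      at e1
    rw [show m + 2 + 2 * k = m + 2 * k + 2 by ring, show m + 2 + k = m + k + 2 by ring] at e2
    rw [show m + 2 * (k + 2) = m + 2 * k + 2 + 2 by ring, U_add t (m + 2 * k + 2), U_add t k,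
      show m + (k + 2) = m + k + 2 by ring, show m + 2 * k + 2 + 1 = m + 2 * k + 3 by ring]
    have e3 := U_add t m
    linear_combination t * e1 - e2 - e3

/-- composition -/
lemma U_mul (t : ℤ) (k j : ℕ) : U t (j * k) = U t k * U (V t k) j := by
  revert j
  apply two_step
  · simp [U_zero]
  · simp [U_one]
  · intro j h1 h2
    have e := sum_id t k (j * k)
    rw [show (j + 2) * k = j * k + 2 * k by ring, U_add]
    rw [show j * k + k = (j + 1) * k by ring] at e
    linear_combination e + V t k * h2 - h1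

/-- the power of `p` in `U t j` is the power of `p` in `j` -/
lemma U_dvd (p : ℕ) (hp : p.Prime) (k : ℕ) : ∀ j : ℕ, ∀ t G : ℤ,
    ((p : ℤ) ^ 2 ∣ t - 2) → (p : ℤ) ^ k ∣ G * U t j → (p : ℤ) ^ k ∣ G * j := by
  have hpI : Prime (p : ℤ) := Nat.prime_iff_prime_int.1 hp
  intro j
  induction j using Nat.strong_induction_on with
  | _ j ih =>
    intro t G ht h
    by_cases hpj : p ∣ j
    · obtain ⟨j', rfl⟩ := hpj
      rcases Nat.eq_zero_or_pos j' with h0 | h0
      · rw [h0]; simp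
      · have h1 : U t (p * j') = U t j' * U (V t j') p := U_mul t j' p
        have h2 : (p : ℤ) ^ 2 ∣ U (V t j') p - p :=
          (ht.trans (V_mod t j')).trans (U_mod (V t j') p)
        obtain ⟨z, hz⟩ := h2
        have h3 : U (V t j') p = p * (1 + p * z) := by linear_combination hz
        rw [h1, h3] at h
        have h4 : IsCoprime ((p : ℤ) ^ k) (1 + p * z) := by
          apply IsCoprime.pow_left
          exact ⟨-z, 1, by ring⟩
        have h5 : (p : ℤ) ^ k ∣ (G * p) * U t j' := by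
          apply h4.dvd_of_dvd_mul_right
          have e : (G * p) * U t j' * (1 + p * z) = G * (U t j' * (p * (1 + p * z))) := by ring
          rw [e]
          exact h
        have h6 := ih j' (by nlinarith [hp.two_le]) t (G * p) ht h5
        have e : G * ((p * j' : ℕ) : ℤ) = (G * p) * j' := by push_cast; ring
        rw [e]
        exact h6
    · have h1 : (p : ℤ) ∣ U t j - j := (dvd_pow_self _ (by norm_num)).trans (ht.trans (U_mod t j))
      have h2 : ¬ (p : ℤ) ∣ U t j := by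
        intro h3
        apply hpj
        have : (p : ℤ) ∣ (j : ℤ) := by
          have := dvd_sub h3 h1
          simpa using this
        exact_mod_cast this
      have h3 : IsCoprime ((p : ℤ) ^ k) (U t j) := by
        apply IsCoprime.pow_left
        exact (Prime.coprime_iff_not_dvd hpI).2 h2
      exact (h3.dvd_of_dvd_mul_right h).mul_right _

lemma V_dvd (t : ℤ) (p : ℕ) (hp : p.Prime) (ht : (p : ℤ) ^ 2 ∣ t - 2) (k m : ℕ) (G : ℤ)
    (h : (p : ℤ) ^ k ∣ G * V t m) : (p : ℤ) ^ k ∣ 2 * G := by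
  have hpI : Prime (p : ℤ) := Nat.prime_iff_prime_int.1 hp
  obtain ⟨z, hz⟩ := ht.trans (V_mod t m)
  have hV : V t m = 2 + (p : ℤ) ^ 2 * z := by linear_combination hz
  rcases hp.eq_two_or_odd' with rfl | hodd
  · have h1 : V t m = 2 * (1 + 2 * z) := by rw [hV]; push_cast; ring
    rw [h1] at h
    have h4 : IsCoprime (((2 : ℕ) : ℤ) ^ k) (1 + 2 * z) := by
      apply IsCoprime.pow_left
      exact ⟨-z, 1, by push_cast; ring⟩
    apply h4.dvd_of_dvd_mul_right
    have e : 2 * G * (1 + 2 * z) = G * (2 * (1 + 2 * z)) := by ring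
    rw [e]
    exact h
  · have h2 : ¬ (p : ℤ) ∣ V t m := by
      intro h3
      rw [hV] at h3
      have h4 : (p : ℤ) ∣ 2 := by
        have h5 : (p : ℤ) ∣ (p : ℤ) ^ 2 * z := (dvd_pow_self _ (by norm_num)).mul_right _
        have := dvd_sub h3 h5
        simpa using this
      have h6 : p ∣ 2 := by exact_mod_cast h4
      have h7 := Nat.le_of_dvd (by norm_num) h6
      have h8 := hp.two_le
      have h9 : p = 2 := by omega
      rw [h9] at hodd
      exact absurd hodd (by decide)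
    have h3 : IsCoprime ((p : ℤ) ^ k) (V t m) := by
      apply IsCoprime.pow_left
      exact (Prime.coprime_iff_not_dvd hpI).2 h2
    exact (h3.dvd_of_dvd_mul_right h).mul_left _

/-- divisibility by all prime powers -/
lemma dvd_of_primes (S G : ℤ) (h : ∀ (p k : ℕ), p.Prime → (p : ℤ) ^ k ∣ S → (p : ℤ) ^ k ∣ G) :
    S ∣ G := by
  rw [← Int.natAbs_dvd_natAbs, Nat.dvd_iff_prime_pow_dvd_dvd]
  intro p k hp hd
  have h1 : (p : ℤ) ^ k ∣ S := by
    have : ((p ^ k : ℕ) : ℤ) ∣ S := Int.natCast_dvd.2 hd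
    exact_mod_cast this
  have h2 := h p k hp h1
  have h3 : ((p ^ k : ℕ) : ℤ) ∣ G := by exact_mod_cast h2
  exact Int.natCast_dvd.1 h3

/-- few coincidences -/
theorem few_U (t : ℤ) (s c : ℕ) (ht : (s : ℤ) ^ 2 ∣ t - 2) :
    Few (fun k => (c : ℤ) * U t (2 * k)) s (2 * c) := by
  have key : ∀ (n : ℕ) (h : ℤ) (j d : ℕ), (s : ℤ) ^ n ∣ h * (c * U t (2 * (j + d)) -
      c * U t (2 * j)) → (s : ℤ) ^ n ∣ ((2 * c : ℕ) : ℤ) * h * d := by
    intro n h j d hd
    apply dvd_of_primes
    intro p k hp hpk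
    rcases Nat.eq_zero_or_pos k with rfl | hk
    · simp
    have hps : (p : ℤ) ∣ s := by
      have hpI : Prime (p : ℤ) := Nat.prime_iff_prime_int.1 hp
      exact hpI.dvd_of_dvd_pow ((dvd_pow_self _ (by omega)).trans hpk)
    have htp : (p : ℤ) ^ 2 ∣ t - 2 := (pow_dvd_pow_of_dvd hps 2).trans ht
    have h1 := hpk.trans hd
    have h2 := diff_id t d (2 * j)
    rw [show 2 * j + 2 * d = 2 * (j + d) by ring] at h2
    have h3 : (p : ℤ) ^ k ∣ (h * c * U t d) * V t (2 * j + d) := by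
      have e : (h * c * U t d) * V t (2 * j + d) =
          h * (c * U t (2 * (j + d)) - c * U t (2 * j)) := by
        linear_combination (-(h * c)) * h2
      rw [e]
      exact h1
    have h4 := V_dvd t p hp htp k _ _ h3
    have h5 : (p : ℤ) ^ k ∣ (2 * h * c) * U t d := by
      have e : (2 * h * c) * U t d = 2 * (h * c * U t d) := by ring
      rw [e]
      exact h4
    have h6 := U_dvd p hp k d t _ htp h5
    have e : ((2 * c : ℕ) : ℤ) * h * d = (2 * h * c) * d := by push_cast; ring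
    rw [e]
    exact h6
  intro n h i j hij
  rcases Nat.le_total j i with hle | hle
  · obtain ⟨d, rfl⟩ := Nat.exists_eq_add_of_le hle
    have h1 := key n h j d hij
    have e : ((2 * c : ℕ) : ℤ) * h * (((j + d : ℕ) : ℤ) - j) = ((2 * c : ℕ) : ℤ) * h * d := by
      push_cast; ring
    rw [e]
    exact h1
  · obtain ⟨d, rfl⟩ := Nat.exists_eq_add_of_le hle
    have h1 : (s : ℤ) ^ n ∣ h * (c * U t (2 * (i + d)) - c * U t (2 * i)) := by
      rw [← dvd_neg]
      have e : -(h * (c * U t (2 * (i + d)) - c * U t (2 * i))) =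
          h * (c * U t (2 * i) - c * U t (2 * (i + d))) := by ring
      rw [e]
      exact hij
    have h2 := key n h i d h1
    rw [← dvd_neg]
    have e : -(((2 * c : ℕ) : ℤ) * h * ((i : ℤ) - ((i + d : ℕ) : ℤ))) =
        ((2 * c : ℕ) : ℤ) * h * d := by
      push_cast; ring
    rw [e]
    exact h2

/-- a power with trace `2` modulo `M` -/
lemma exists_trace (t : ℤ) (M : ℕ) (hM : 0 < M) : ∃ L : ℕ, 0 < L ∧ (M : ℤ) ∣ V t L - 2 := by
  have : NeZero M := ⟨hM.ne'⟩
  let f : Equiv.Perm (ZMod M × ZMod M) :=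
    { toFun := fun z => (z.2, t * z.2 - z.1)
      invFun := fun z => (t * z.1 - z.2, z.1)
      left_inv := fun z => by ext <;> simp
      right_inv := fun z => by ext <;> simp }
  have hf : ∀ n : ℕ, (f ^ n) (2, (t : ZMod M)) = ((V t n : ZMod M), (V t (n + 1) : ZMod M)) := by
    intro n
    induction n with
    | zero => simp [V_zero, V_one]
    | succ n ih =>
      rw [pow_succ', Equiv.Perm.mul_apply, ih]
      ext
      · rfl
      · change (t : ZMod M) * (V t (n + 1) : ZMod M) - (V t n : ZMod M) = _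
        rw [V_add]
        push_cast
        rfl
  refine ⟨orderOf f, orderOf_pos f, ?_⟩
  have h1 := hf (orderOf f)
  rw [pow_orderOf_eq_one] at h1
  have h2 : (2 : ZMod M) = (V t (orderOf f) : ZMod M) := (Prod.ext_iff.1 h1).1
  rw [← ZMod.intCast_zmod_eq_zero_iff_dvd]
  push_cast
  rw [← h2]
  ring

/-- the unit and the sequence `U` -/
lemma U_eps (t : ℤ) (ε : ℝ) (hε : 1 < ε) (h : ε ^ 2 - t * ε + 1 = 0) (n : ℕ) :
    (U t n : ℝ) * ε = U t (n + 1) - ε⁻¹ ^ n := by
  have hε0 : ε ≠ 0 := by positivity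
  have hinv : ε⁻¹ = t - ε := by
    field_simp
    linarith
  revert n
  apply two_step
  · simp [U_zero, U_one]
  · rw [U_add, U_one, U_zero]
    push_cast
    rw [pow_one, hinv]
    ring
  · intro n h1 h2
    rw [show n + 1 + 1 = n + 2 by ring] at h2
    rw [show n + 2 + 1 = n + 1 + 2 by ring, U_add t n, U_add t (n + 1)]
    push_cast
    rw [show n + 1 + 1 = n + 2 by ring]
    have h3 : ε⁻¹ ^ (n + 2) = t * ε⁻¹ ^ (n + 1) - ε⁻¹ ^ n := by
      have : ε⁻¹ ^ 2 = t * ε⁻¹ - 1 := by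
        rw [hinv]; nlinarith
      rw [pow_add, this, pow_succ]
      ring
    rw [h3]
    linear_combination (t : ℝ) * h2 - h1

lemma V_eps (t : ℤ) (ε : ℝ) (hε : 1 < ε) (h : ε ^ 2 - t * ε + 1 = 0) (n : ℕ) :
    (V t n : ℝ) = ε ^ n + ε⁻¹ ^ n := by
  have hε0 : ε ≠ 0 := by positivity
  have hinv : ε⁻¹ = t - ε := by
    field_simp
    linarith
  revert n
  apply two_step
  · simp [V_zero]; norm_num
  · rw [V_one, pow_one, pow_one, hinv]; ring
  · intro n h1 h2
    rw [V_add]
    push_cast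
    rw [h1, h2]
    have h3 : ε⁻¹ ^ (n + 2) = t * ε⁻¹ ^ (n + 1) - ε⁻¹ ^ n := by
      have : ε⁻¹ ^ 2 = t * ε⁻¹ - 1 := by
        rw [hinv]; nlinarith
      rw [pow_add, this, pow_succ]
      ring
    have h4 : ε ^ (n + 2) = t * ε ^ (n + 1) - ε ^ n := by
      have : ε ^ 2 = t * ε - 1 := by linarith
      rw [pow_add, this, pow_succ]
      ring
    rw [h3, h4]
    ring

lemma U_mono (t : ℤ) (ht : 2 ≤ t) (n : ℕ) : 0 ≤ U t n ∧ U t n + 1 ≤ U t (n + 1) := by
  induction n with
  | zero => simp [U_zero, U_one]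
  | succ n ih =>
    obtain ⟨h1, h2⟩ := ih
    refine ⟨by omega, ?_⟩
    rw [show n + 1 + 1 = n + 2 by ring, U_add]
    nlinarith

lemma le_U (t : ℤ) (ht : 2 ≤ t) (n : ℕ) : (n : ℤ) ≤ U t n := by
  induction n with
  | zero => simp [U_zero]
  | succ n ih =>
    have := (U_mono t ht n).2
    push_cast
    omega

lemma U_le (t : ℤ) (ε : ℝ) (hε : 2 ≤ ε) (h : ε ^ 2 - t * ε + 1 = 0) (n : ℕ) :
    (U t n : ℝ) ≤ ε ^ n - 1 := by
  induction n with
  | zero => simp [U_zero]
  | succ n ih =>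
    have h1 := U_eps t ε (by linarith) h n
    have h2 : ε⁻¹ ^ n ≤ 1 := pow_le_one₀ (by positivity) (inv_le_one_of_one_le₀ (by linarith))
    have h3 : (U t (n + 1) : ℝ) = U t n * ε + ε⁻¹ ^ n := by linarith
    rw [h3, pow_succ]
    nlinarith

end Pool.Agent.Q77.Lw
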