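import Mathlib
import Pool.Agent.H389R2.LC.Cx
import Pool.Agent.Q77.Lw.Luc

/-!
For a quadratic irrational `α` there is a sequence of positive integers `q` with `q ‖q α‖` bounded
and with few coincidences modulo the powers of `s`.
-/

set_option autoImplicit false

namespace Pool.Agent.Q77.Lw

lemma pow_eps (t : ℤ) (ε : ℝ) (h : ε ^ 2 - t * ε + 1 = 0) (n : ℕ) :
    ε ^ (n + 1) = U t (n + 1) * ε - U t n := by
  induction n with
  | zero => simp [U_zero, U_one]
  | succ n ih =>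
    rw [show n + 1 + 1 = n + 2 by ring, U_add]
    push_cast
    rw [pow_succ, ih]
    linear_combination (U t (n + 1) : ℝ) * h

theorem quad_seq (α : ℝ) (hα : Irrational α)
    (hquad : ∃ A B C : ℤ, A ≠ 0 ∧ (A : ℝ) * α ^ 2 + B * α + C = 0) (s : ℕ) (hs : 1 ≤ s) :
    ∃ (a : ℕ → ℤ) (g E : ℕ) (C₀ : ℝ), 1 ≤ g ∧ 0 < C₀ ∧ Few a s g ∧
      (∀ m, |(a m : ℝ)| ≤ 2 ^ (E * (m + 1))) ∧ (∀ m : ℕ, (m : ℤ) ≤ a m) ∧
      (∀ m, (a m : ℝ) * |a m * α - round (a m * α)| ≤ C₀) := by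
  obtain ⟨A0, B0, C0, hA0, hroot⟩ := hquad
  obtain ⟨t0, ε0, ht0, hε0, heq0, a, b, hab⟩ := Pool.H389R2.LC.quad_unit α hα A0 B0 C0 hA0 hroot
  obtain ⟨L, hL, hdiv⟩ := exists_trace t0 (s ^ 2) (by positivity)
  obtain ⟨l, rfl⟩ : ∃ l, L = l + 1 := ⟨L - 1, by omega⟩
  set t := V t0 (l + 1) with ht
  set ε := ε0 ^ (l + 1) with hε
  have hε1 : 1 < ε := one_lt_pow₀ hε0 (by omega)
  have hε00 : ε0 ≠ 0 := by positivity
  have hεpos : 0 < ε := by positivity
  have hVe : (t : ℝ) = ε + ε⁻¹ := by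
    rw [ht, V_eps t0 ε0 hε0 heq0, hε, inv_pow]
  have heq : ε ^ 2 - t * ε + 1 = 0 := by
    rw [hVe]
    field_simp
    ring
  have ht3 : 3 ≤ t := by
    have h1 : (2 : ℝ) < t := by
      rw [hVe]
      have h2 : 0 < (ε - 1) ^ 2 / ε := by
        apply div_pos _ hεpos
        have : ε - 1 ≠ 0 := by linarith
        positivity
      have h3 : (ε - 1) ^ 2 / ε = ε + ε⁻¹ - 2 := by field_simp; ring
      linarith
    have h2 : (2 : ℤ) < t := by exact_mod_cast h1
    omega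
  have ht3R : (3 : ℝ) ≤ t := by exact_mod_cast ht3
  have hε2 : 2 ≤ ε := by
    by_contra hcon
    push Not at hcon
    nlinarith
  have hst : (s : ℤ) ^ 2 ∣ t - 2 := by exact_mod_cast hdiv
  -- representation of `α`
  set u : ℕ := (U t0 (l + 1)).toNat with hu
  have hupos : 1 ≤ U t0 (l + 1) := by
    have := le_U t0 (by omega) (l + 1)
    push_cast at this
    omega
  have huR : (u : ℝ) = U t0 (l + 1) := by
    have := Int.toNat_of_nonneg (by omega : 0 ≤ U t0 (l + 1))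
    exact_mod_cast congrArg (Int.cast : ℤ → ℝ) this
  set c : ℕ := a.den * b.den * u with hc
  have hu1 : 1 ≤ u := by omega
  have hc1 : 1 ≤ c := Nat.mul_pos (Nat.mul_pos a.den_pos b.den_pos) hu1
  set A : ℤ := a.num * b.den * U t0 (l + 1) + b.num * a.den * U t0 l with hA
  set B : ℤ := b.num * a.den with hB
  have hcα : (c : ℝ) * α = A + B * ε := by
    have ha : (a.den : ℝ) * (a : ℝ) = a.num := by
      have := Rat.mul_den_eq_num a
      have h2 : ((a * a.den : ℚ) : ℝ) = ((a.num : ℚ) : ℝ) := by rw [this]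
      push_cast at h2
      linarith
    have hb : (b.den : ℝ) * (b : ℝ) = b.num := by
      have := Rat.mul_den_eq_num b
      have h2 : ((b * b.den : ℚ) : ℝ) = ((b.num : ℚ) : ℝ) := by rw [this]
      push_cast at h2
      linarith
    have h3 := pow_eps t0 ε0 heq0 l
    rw [← hε] at h3
    rw [hc, hA, hB, hab]
    push_cast
    rw [huR]
    linear_combination ((b.den : ℝ) * U t0 (l + 1)) * ha + ((a.den : ℝ) * U t0 (l + 1) * ε0) * hb
      - ((b.num : ℝ) * a.den) * h3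
  refine ⟨fun k => (c : ℤ) * U t (2 * k), 2 * c, c + ⌈ε ^ 2⌉₊, c * |(B : ℝ)| + 1, by omega,
    by positivity, few_U t s c hst, ?_, ?_, ?_⟩
  · intro m
    have h1 := U_le t ε hε2 heq (2 * m)
    have h2 := (U_mono t (by omega) (2 * m)).1
    have h2R : (0 : ℝ) ≤ U t (2 * m) := by exact_mod_cast h2
    push_cast
    rw [abs_of_nonneg (by positivity)]
    set D := ⌈ε ^ 2⌉₊ with hD
    have hD1 : ε ^ 2 ≤ D := Nat.le_ceil _
    have hc2 : (c : ℝ) ≤ 2 ^ c := by exact_mod_cast (Nat.lt_two_pow_self (n := c)).le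
    have hD2 : (D : ℝ) ≤ 2 ^ D := by exact_mod_cast (Nat.lt_two_pow_self (n := D)).le
    calc (c : ℝ) * U t (2 * m) ≤ 2 ^ c * (2 ^ D) ^ m := by
          have h3 : (U t (2 * m) : ℝ) ≤ (2 ^ D) ^ m := by
            calc (U t (2 * m) : ℝ) ≤ ε ^ (2 * m) := by linarith
              _ = (ε ^ 2) ^ m := by rw [pow_mul]
              _ ≤ (2 ^ D) ^ m := by
                apply pow_le_pow_left₀ (by positivity)
                exact hD1.trans hD2
          gcongr
      _ = 2 ^ (c + D * m) := by rw [← pow_mul, ← pow_add]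
      _ ≤ 2 ^ ((c + D) * (m + 1)) := by
          apply pow_le_pow_right₀ (by norm_num)
          nlinarith
  · intro m
    have h1 := le_U t (by omega) (2 * m)
    push_cast at h1
    have h2 : (1 : ℤ) ≤ c := by exact_mod_cast hc1
    nlinarith
  · intro m
    have h1 := U_eps t ε hε1 heq (2 * m)
    have h2 := (U_mono t (by omega) (2 * m)).1
    have h2R : (0 : ℝ) ≤ U t (2 * m) := by exact_mod_cast h2
    have h3 := U_le t ε hε2 heq (2 * m)
    push_cast
    have h4 : (c : ℝ) * U t (2 * m) * α =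
        ((A * U t (2 * m) + B * U t (2 * m + 1) : ℤ) : ℝ) - B * ε⁻¹ ^ (2 * m) := by
      push_cast
      linear_combination (U t (2 * m) : ℝ) * hcα + (B : ℝ) * h1
    have h5 : |(c : ℝ) * U t (2 * m) * α - round ((c : ℝ) * U t (2 * m) * α)| ≤
        |(B : ℝ)| * ε⁻¹ ^ (2 * m) := by
      refine (round_le _ (A * U t (2 * m) + B * U t (2 * m + 1))).trans (le_of_eq ?_)
      rw [h4]
      have : ((A * U t (2 * m) + B * U t (2 * m + 1) : ℤ) : ℝ) - B * ε⁻¹ ^ (2 * m) -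
          ((A * U t (2 * m) + B * U t (2 * m + 1) : ℤ) : ℝ) = -(B * ε⁻¹ ^ (2 * m)) := by ring
      rw [this, abs_neg, abs_mul, abs_of_pos (by positivity : (0 : ℝ) < ε⁻¹ ^ (2 * m))]
    calc (c : ℝ) * U t (2 * m) * |(c : ℝ) * U t (2 * m) * α - round ((c : ℝ) * U t (2 * m) * α)|
        ≤ (c * ε ^ (2 * m)) * (|(B : ℝ)| * ε⁻¹ ^ (2 * m)) := by
          apply mul_le_mul _ h5 (abs_nonneg _) (by positivity)
          have : (U t (2 * m) : ℝ) ≤ ε ^ (2 * m) := by linarith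
          gcongr
      _ = c * |(B : ℝ)| * (ε * ε⁻¹) ^ (2 * m) := by rw [mul_pow]; ring
      _ = c * |(B : ℝ)| := by rw [mul_inv_cancel₀ hεpos.ne', one_pow, mul_one]
      _ ≤ _ := by linarith

end Pool.Agent.Q77.Lw
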